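import Pool.Agent.N343.TC.Asm
import Pool.Agent.N565.TC.WA
import Pool.Agent.N199.TC.POW
import Pool.Agent.N767.TC.SEQ
import Pool.Agent.N650.TC.REM1
import Pool.Agent.N163.TC.Rem2
import Pool.Agent.N75.TC.FIX
import Pool.Agent.N514.TC.FUN
import Pool.Agent.N434.TC.HN
import Pool.Agent.N278.TC.Inj
import Pool.Agent.N564.TC.CONV
import Pool.Agent.N897.TC.DER
import Pool.Agent.N8.TC.SAND
import Pool.Agent.N491.TC.NC
import Pool.Agent.N491.TC.OUT
import Pool.Agent.N572.TC.INV
import Pool.Agent.N674.TC.SMD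
import Pool.Agent.N281.TC.Null
import Pool.Agent.N558.TC.GRAD
import Pool.Agent.N296.TC.Glue
import Pool.Agent.N82.TC.EXT
import Pool.Agent.N284.TC.WK
import Pool.Agent.N383.TC.ND
import Pool.Agent.N152.TC.TRANS

/-! # MP_8dfb46_an : convexity in the two-phase outer overdetermined problem fails

In the plane (`N = 2`) with the conductivity `σ_c = 1/5` there is a convex smooth core `D` and a
number `V₀ > |D|` such that the outer problem for `(D, V₀)` has a solution `Ω` which is not
convex.  `Ω` is the image of the unit disc under `z + a z^(k+1) + b z^(2k+1)`; the core is found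
for large `k` by a contraction in the weighted Wiener algebra. -/

set_option autoImplicit false

open MeasureTheory Set

namespace Pool.Agent.Results.MP_8dfb46_an.ConvexityFails

open Pool.Agent.N343.TC

theorem hInv : S_INV := Pool.Agent.N572.TC.INV.main
theorem hSeq : S_SEQ := Pool.Agent.N767.TC.main
theorem hPow : S_POW := Pool.Agent.N199.TC.POW.main
theorem hInj : S_INJ := Pool.Agent.N278.TC.main
theorem hSmd : S_SMD := Pool.Agent.N674.TC.main hInv
theorem hOut : S_OUT := Pool.Agent.N491.TC.OUT.main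

theorem hCore : S_CORE :=
  Pool.Agent.N514.TC.main Pool.Agent.N565.TC.main hPow
    (Pool.Agent.N650.TC.main hPow hSeq) (Pool.Agent.N163.TC.Rem2.main hPow hSeq)
    Pool.Agent.N75.TC.FIX.main

theorem hTrans : S_TRANS :=
  Pool.Agent.N152.TC.main hInv hSmd Pool.Agent.N281.TC.Null.main Pool.Agent.N558.TC.GRAD.main
    Pool.Agent.N296.TC.main Pool.Agent.N82.TC.EXT.main Pool.Agent.N284.TC.WK.main
    Pool.Agent.N383.TC.ND.main

/-- For `N = 2` and `σ_c = 1/5` there are a convex core `D`, a number `V₀ > |D|` and a solution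
`Ω` of the outer problem for `(D, V₀)` which is not convex. -/
theorem result :
    ∃ D : Set ℂ, Convex ℝ D ∧ IsSmoothDomain D ∧ ∃ V₀ : ℝ, volume D < ENNReal.ofReal V₀ ∧
      ∃ Ω : Set ℂ, IsOuterSolution (1 / 5) D V₀ Ω ∧ ¬ Convex ℝ Ω :=
  final hSeq hCore (Pool.Agent.N434.TC.main hSeq) hInj (Pool.Agent.N564.TC.main hInv)
    Pool.Agent.N897.TC.DER.main (Pool.Agent.N8.TC.SAND.main hInj) Pool.Agent.N491.TC.NC.main
    hOut hInv hSmd hTrans

end Pool.Agent.Results.MP_8dfb46_an.ConvexityFails
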